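import Pool.Agent.helper49.Dich.Uni

/-!
# The question on `C(n) ≤ K log n` is equivalent to a power saving for the exceptional set
-/

namespace Pool.Agent.helper49.Dich

open Finset Pool.Agent.helper14.EX1 Pool.Agent.helper49.PDR Pool.Agent.helper82.PD
  Pool.Agent.helper41.Coll

open Classical in
/-- The number of the integers `2 ≤ n ≤ x` which reach `1` with more than `K log n` circuits. -/
noncomputable def Exc (K x : ℝ) : ℕ :=
  ((Icc 2 ⌊x⌋₊).filter (fun n : ℕ => ∃ c : ℕ, HasC n c ∧ K * Real.log n < c)).card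

theorem circuits_reach {m c : ℕ} (h : Circuits m c) : ∃ i, f^[i] m = 1 := by
  induction h with
  | one => exact ⟨0, rfl⟩
  | step h1 h2 h3 ih =>
    obtain ⟨k, l, -, -, -, -, -, h⟩ := h2
    obtain ⟨i, hi⟩ := ih
    exact ⟨i + (k + l), by rw [Function.iterate_add_apply, h, hi]⟩

theorem hasC_reach {n c : ℕ} (h : HasC n c) : ∃ i, f^[i] n = 1 := by
  obtain ⟨j, -, -, h3⟩ := h
  obtain ⟨i, hi⟩ := circuits_reach h3
  exact ⟨i + j, by rw [Function.iterate_add_apply, hi]⟩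

theorem f_one (i : ℕ) : f^[i] 1 = 1 := by
  induction i with
  | zero => rfl
  | succ i ih => rw [Function.iterate_succ_apply', ih]; rfl

/-- Numbers not divisible by `3`. -/
theorem bound_three {K δ Λ y0 : ℝ} (hδ : 0 < δ) (hΛ : 0 ≤ Λ)
    (h : ∀ y : ℝ, y0 ≤ y → ∃ x : ℝ, y ≤ x ∧ x ≤ y ^ Λ ∧ (Exc K x : ℝ) ≤ x ^ (1 - δ)) :
    ∃ K' : ℝ, 0 ≤ K' ∧ ∀ m : ℕ, 2 ≤ m → ¬ 3 ∣ m → ∀ c : ℕ, HasC m c → (c : ℝ) ≤ K' * Real.log m := by
  classical
  obtain ⟨c, B, hc, hB, U⟩ := uniform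
  obtain ⟨a, ha⟩ := pow_unbounded_of_one_lt (max B y0) (by norm_num : (1 : ℝ) < 2)
  obtain ⟨d, hd⟩ := pow_unbounded_of_one_lt (1 / c) (by norm_num : (1 : ℝ) < 2)
  obtain ⟨q, hq⟩ := exists_nat_ge ((1 + d) / δ)
  refine ⟨max K 0 * (Λ * ((1 + a + q : ℕ) : ℝ)), by positivity, ?_⟩
  intro m hm h3 C0 hC0
  have hm2 : (2 : ℝ) ≤ m := by exact_mod_cast hm
  have hm0 : (0 : ℝ) < m := by linarith
  have hm1 : (1 : ℝ) ≤ m := by linarith
  set y : ℝ := (m : ℝ) ^ (1 + a + q) with hy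
  have hpa : (2 : ℝ) ^ a ≤ (m : ℝ) ^ a := pow_le_pow_left₀ (by norm_num) hm2 a
  have hpd : (2 : ℝ) ^ d ≤ (m : ℝ) ^ d := pow_le_pow_left₀ (by norm_num) hm2 d
  have hpq : (1 : ℝ) ≤ (m : ℝ) ^ q := one_le_pow₀ hm1
  have hy1 : (2 : ℝ) ^ a * m ≤ y := by
    rw [hy, pow_add, pow_add, pow_one]
    calc (2 : ℝ) ^ a * m ≤ (m : ℝ) ^ a * m := mul_le_mul_of_nonneg_right hpa hm0.le
      _ = m * (m : ℝ) ^ a * 1 := by ring
      _ ≤ m * (m : ℝ) ^ a * (m : ℝ) ^ q := mul_le_mul_of_nonneg_left hpq (by positivity)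
  have hyB : B * m ≤ y := by
    refine le_trans (mul_le_mul_of_nonneg_right ?_ hm0.le) hy1
    exact (le_max_left _ _).trans ha.le
  have hyy : y0 ≤ y := by
    have h2 : (2 : ℝ) ^ a ≤ 2 ^ a * m := le_mul_of_one_le_right (by positivity) hm1
    exact ((le_max_right _ _).trans ha.le).trans (h2.trans hy1)
  have hyq : (m : ℝ) ^ q ≤ y := by
    rw [hy]
    exact pow_le_pow_right₀ hm1 (by omega)
  have hypos : 0 < y := by positivity
  obtain ⟨x, hx1, hx2, hx3⟩ := h y hyy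
  have hxpos : 0 < x := by linarith
  obtain ⟨S, hS, hcard⟩ := U m (by omega) h3 (hasC_reach hC0) x (hyB.trans hx1)
  -- the power
  have hpow : (m : ℝ) / c < x ^ δ := by
    have e1 : ((m : ℝ) ^ q) ^ δ ≤ x ^ δ := Real.rpow_le_rpow (by positivity) (hyq.trans hx1) hδ.le
    have e2 : ((m : ℝ) ^ q) ^ δ = (m : ℝ) ^ ((q : ℝ) * δ) := by
      rw [← Real.rpow_natCast, ← Real.rpow_mul hm0.le]
    have e3 : ((1 + d : ℕ) : ℝ) ≤ (q : ℝ) * δ := by
      have := (div_le_iff₀ hδ).1 hq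
      push_cast
      exact this
    have e4 : (m : ℝ) ^ (1 + d) ≤ (m : ℝ) ^ ((q : ℝ) * δ) := by
      rw [← Real.rpow_natCast]
      exact Real.rpow_le_rpow_of_exponent_le hm1 e3
    have e5 : (m : ℝ) / c < (m : ℝ) ^ (1 + d) := by
      rw [pow_add, pow_one, div_eq_mul_one_div]
      exact mul_lt_mul_of_pos_left (hd.trans_le hpd) hm0
    linarith
  have hlt : x ^ (1 - δ) < c * (x / m) := by
    rw [Real.rpow_sub hxpos, Real.rpow_one]
    have hxd : 0 < x ^ δ := Real.rpow_pos_of_pos hxpos δ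
    rw [div_lt_iff₀ hxd]
    have h5 : (m : ℝ) < x ^ δ * c := (div_lt_iff₀ hc).1 hpow
    have h6 : c * (x / m) * x ^ δ = x * (x ^ δ * c) / m := by ring
    rw [h6, lt_div_iff₀ hm0]
    exact mul_lt_mul_of_pos_left h5 hxpos
  -- an element of `S` which is not exceptional
  obtain ⟨n, hnS, hn⟩ : ∃ n ∈ S, ¬ ∃ c' : ℕ, HasC n c' ∧ K * Real.log n < c' := by
    by_contra hcon
    push Not at hcon
    have hsub : S ⊆ (Icc 2 ⌊x⌋₊).filter (fun n : ℕ => ∃ c : ℕ, HasC n c ∧ K * Real.log n < c) := by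
      intro n hn
      obtain ⟨h1, h2, -⟩ := hS n hn
      rw [mem_filter, mem_Icc]
      exact ⟨⟨h1, Nat.le_floor h2⟩, hcon n hn⟩
    have h7 : (S.card : ℝ) ≤ Exc K x := by
      exact_mod_cast card_le_card hsub
    linarith
  obtain ⟨h1, h2, -, h4⟩ := hS n hnS
  obtain ⟨C', hC', hC'n⟩ := h4 C0 hC0
  have h5 : (C' : ℝ) ≤ K * Real.log n := by
    by_contra hcon
    exact hn ⟨C', hC'n, not_le.1 hcon⟩
  have hn0 : (0 : ℝ) < n := by
    have : (2 : ℝ) ≤ n := by exact_mod_cast h1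
    linarith
  have hlogn : 0 ≤ Real.log n := Real.log_nonneg (by
    have : (2 : ℝ) ≤ n := by exact_mod_cast h1
    linarith)
  have h6 : Real.log n ≤ Λ * (((1 + a + q : ℕ) : ℝ) * Real.log m) := by
    calc Real.log n ≤ Real.log x := Real.log_le_log hn0 h2
      _ ≤ Real.log (y ^ Λ) := Real.log_le_log hxpos hx2
      _ = Λ * Real.log y := Real.log_rpow hypos Λ
      _ = Λ * (((1 + a + q : ℕ) : ℝ) * Real.log m) := by rw [hy, Real.log_pow]
  calc (C0 : ℝ) ≤ C' := by exact_mod_cast hC'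
    _ ≤ K * Real.log n := h5
    _ ≤ max K 0 * Real.log n := mul_le_mul_of_nonneg_right (le_max_left _ _) hlogn
    _ ≤ max K 0 * (Λ * (((1 + a + q : ℕ) : ℝ) * Real.log m)) :=
        mul_le_mul_of_nonneg_left h6 (le_max_right _ _)
    _ = max K 0 * (Λ * ((1 + a + q : ℕ) : ℝ)) * Real.log m := by ring

/-- The first odd term of a multiple of `3`. -/
theorem three_step {n c : ℕ} (hn : 2 ≤ n) (h3 : 3 ∣ n) (h : HasC n c) :
    ∃ q c' : ℕ, 2 ≤ q ∧ ¬ 3 ∣ q ∧ q ≤ 2 * n ∧ HasC q c' ∧ c ≤ c' + 1 := by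
  obtain ⟨i, m, hmo, hnm⟩ := Nat.exists_eq_two_pow_mul_odd (by omega : n ≠ 0)
  have h3m : 3 ∣ m := by
    rw [hnm] at h3
    exact (Nat.Coprime.dvd_of_dvd_mul_left (Nat.Coprime.pow_right i (by norm_num)) h3)
  obtain ⟨t, ht⟩ := hmo
  have hq : 3 * m + 1 = 2 * (2 ^ 0 * (3 * t + 2)) := by rw [pow_zero, one_mul]; omega
  have hm1 : m ≠ 1 := by
    rintro rfl
    omega
  have hfm : f m = 3 * t + 2 := CirG_f_odd hm1 (by omega)
  have hfi : f^[i] n = m := by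
    rw [hnm]
    exact FiveG_half m i
  obtain ⟨T, hT⟩ := hasC_reach h
  have hreach : f^[T] (3 * t + 2) = 1 := by
    have e1 : f^[T + (i + 1)] n = 1 := by
      rw [add_comm, Function.iterate_add_apply, hT, f_one]
    rw [Function.iterate_add_apply, Function.iterate_succ_apply', hfi, hfm] at e1
    exact e1
  obtain ⟨c', hc'⟩ := exists_hasC hreach
  have h4 := CirG_pow (CirG_core hm1 hq hc') i
  rw [← hnm] at h4
  have h5 := hasC_unique h h4
  refine ⟨3 * t + 2, c', by omega, by omega, ?_, hc', ?_⟩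
  · have : m ≤ n := by
      rw [hnm]
      exact Nat.le_mul_of_pos_left m (by positivity)
    omega
  · split_ifs at h5 <;> omega

/-- **A power saving for the exceptional set at sufficiently many scales implies the logarithmic bound.** -/
theorem q1_of_saving {K δ Λ y0 : ℝ} (hδ : 0 < δ)
    (h : ∀ y : ℝ, y0 ≤ y → ∃ x : ℝ, y ≤ x ∧ x ≤ y ^ Λ ∧ (Exc K x : ℝ) ≤ x ^ (1 - δ)) :
    ∃ K' : ℝ, ∀ n : ℕ, 2 ≤ n → ∀ c : ℕ, HasC n c → (c : ℝ) ≤ K' * Real.log n := by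
  have h' : ∀ y : ℝ, max y0 1 ≤ y → ∃ x : ℝ, y ≤ x ∧ x ≤ y ^ (max Λ 0) ∧
      (Exc K x : ℝ) ≤ x ^ (1 - δ) := by
    intro y hy
    obtain ⟨x, h1, h2, h3⟩ := h y ((le_max_left _ _).trans hy)
    exact ⟨x, h1, h2.trans (Real.rpow_le_rpow_of_exponent_le ((le_max_right _ _).trans hy)
      (le_max_left _ _)), h3⟩
  obtain ⟨K', hK', H⟩ := bound_three hδ (le_max_right _ _) h'
  refine ⟨2 * K' + 2, fun n hn c hc => ?_⟩
  have hn2 : (2 : ℝ) ≤ n := by exact_mod_cast hn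
  have hl2 : (1 : ℝ) / 2 ≤ Real.log 2 := by
    have := Real.log_two_gt_d9
    linarith
  have hln : Real.log 2 ≤ Real.log n := Real.log_le_log (by norm_num) hn2
  by_cases h3 : 3 ∣ n
  · obtain ⟨q, c', hq2, hq3, hqn, hc', hcc⟩ := three_step hn h3 hc
    have h4 := H q hq2 hq3 c' hc'
    have hq2' : (2 : ℝ) ≤ q := by exact_mod_cast hq2
    have h5 : Real.log q ≤ 2 * Real.log n := by
      have e1 : (q : ℝ) ≤ 2 * n := by exact_mod_cast hqn
      have e2 : Real.log q ≤ Real.log (2 * n) := Real.log_le_log (by linarith) e1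
      rw [Real.log_mul (by norm_num) (by linarith)] at e2
      linarith
    have h6 : (c : ℝ) ≤ c' + 1 := by exact_mod_cast hcc
    have h7 : K' * Real.log q ≤ K' * (2 * Real.log n) := mul_le_mul_of_nonneg_left h5 hK'
    nlinarith
  · have h4 := H n hn h3 c hc
    have : 0 ≤ Real.log n := by linarith
    nlinarith [mul_nonneg hK' this]

/-- The equivalence. -/
theorem q1_iff : (∃ K : ℝ, ∀ n : ℕ, 2 ≤ n → ∀ c : ℕ, HasC n c → (c : ℝ) ≤ K * Real.log n) ↔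
    ∃ K δ x0 : ℝ, 0 < δ ∧ ∀ x : ℝ, x0 ≤ x → (Exc K x : ℝ) ≤ x ^ (1 - δ) := by
  constructor
  · rintro ⟨K, hK⟩
    refine ⟨K, 1, 1, one_pos, fun x _ => ?_⟩
    have : Exc K x = 0 := by
      classical
      unfold Exc
      rw [card_eq_zero, filter_eq_empty_iff]
      rintro n hn ⟨c, hc1, hc2⟩
      have := hK n (mem_Icc.1 hn).1 c hc1
      linarith
    rw [this]
    simp
  · rintro ⟨K, δ, x0, hδ, h⟩
    refine q1_of_saving (K := K) (Λ := 1) (y0 := x0) hδ fun y hy => ⟨y, le_rfl, ?_, h y hy⟩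
    rw [Real.rpow_one]

end Pool.Agent.helper49.Dich
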