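import Pool.Agent.helper49.Dich.Main

/-!
# The transfer inequality: from the size of the exceptional set to every single integer
-/

namespace Pool.Agent.helper49.Dich

open Finset Pool.Agent.helper14.EX1 Pool.Agent.helper49.PDR Pool.Agent.helper82.PD
  Pool.Agent.helper41.Coll

theorem transfer_three : ∃ c B : ℝ, 0 < c ∧ 1 ≤ B ∧ ∀ (K x : ℝ) (m C : ℕ), 0 ≤ K → 2 ≤ m →
    ¬ 3 ∣ m → HasC m C → B * m ≤ x → m * (Exc K x : ℝ) < c * x → (C : ℝ) ≤ K * Real.log x := by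
  classical
  obtain ⟨c, B, hc, hB, U⟩ := uniform
  refine ⟨c, B, hc, hB, fun K x m C0 hK hm h3 hC0 hx hE => ?_⟩
  have hm0 : (0 : ℝ) < m := by
    have : (2 : ℝ) ≤ m := by exact_mod_cast hm
    linarith
  obtain ⟨S, hS, hcard⟩ := U m (by omega) h3 (hasC_reach hC0) x hx
  obtain ⟨n, hnS, hn⟩ : ∃ n ∈ S, ¬ ∃ c' : ℕ, HasC n c' ∧ K * Real.log n < c' := by
    by_contra hcon
    push Not at hcon
    have hsub : S ⊆ (Icc 2 ⌊x⌋₊).filter (fun n : ℕ => ∃ c : ℕ, HasC n c ∧ K * Real.log n < c) := by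
      intro n hn
      obtain ⟨h1, h2, -⟩ := hS n hn
      rw [mem_filter, mem_Icc]
      exact ⟨⟨h1, Nat.le_floor h2⟩, hcon n hn⟩
    have h7 : (S.card : ℝ) ≤ Exc K x := by
      exact_mod_cast card_le_card hsub
    have h8 : m * (c * (x / m)) ≤ m * (Exc K x : ℝ) :=
      mul_le_mul_of_nonneg_left (hcard.trans h7) hm0.le
    have h9 : (m : ℝ) * (c * (x / m)) = c * x := by
      field_simp
    linarith
  obtain ⟨h1, h2, -, h4⟩ := hS n hnS
  obtain ⟨C', hC', hC'n⟩ := h4 C0 hC0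
  have h5 : (C' : ℝ) ≤ K * Real.log n := by
    by_contra hcon
    exact hn ⟨C', hC'n, not_le.1 hcon⟩
  have hn0 : (0 : ℝ) < n := by
    have : (2 : ℝ) ≤ n := by exact_mod_cast h1
    linarith
  calc (C0 : ℝ) ≤ C' := by exact_mod_cast hC'
    _ ≤ K * Real.log n := h5
    _ ≤ K * Real.log x := mul_le_mul_of_nonneg_left (Real.log_le_log hn0 h2) hK

theorem transfer : ∃ c B : ℝ, 0 < c ∧ 1 ≤ B ∧ ∀ (K x : ℝ) (m C : ℕ), 0 ≤ K → 2 ≤ m →
    HasC m C → B * m ≤ x → m * (Exc K x : ℝ) < c * x → (C : ℝ) ≤ K * Real.log x + 1 := by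
  obtain ⟨c, B, hc, hB, H⟩ := transfer_three
  refine ⟨c / 2, 2 * B, by positivity, by linarith, fun K x m C hK hm hC hx hE => ?_⟩
  have hm0 : (0 : ℝ) < m := by
    have : (2 : ℝ) ≤ m := by exact_mod_cast hm
    linarith
  have hE0 : (0 : ℝ) ≤ Exc K x := Nat.cast_nonneg _
  have hx0 : 0 ≤ x := le_trans (by positivity) hx
  by_cases h3 : 3 ∣ m
  · obtain ⟨q, c', hq2, hq3, hqm, hc', hcc⟩ := three_step hm h3 hC
    have hqm' : (q : ℝ) ≤ 2 * m := by exact_mod_cast hqm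
    have h1 : B * q ≤ x := by nlinarith
    have h2 : q * (Exc K x : ℝ) < c * x := by nlinarith
    have h4 := H K x q c' hK hq2 hq3 hc' h1 h2
    have h5 : (C : ℝ) ≤ c' + 1 := by exact_mod_cast hcc
    linarith
  · have h1 : B * m ≤ x := by nlinarith
    have h2 : m * (Exc K x : ℝ) < c * x := by nlinarith
    have h4 := H K x m C hK hm h3 hC h1 h2
    linarith

/-- The threshold form of the equivalence: `c x / y` exceptions at one scale `x ∈ [y, y ^ Λ]`. -/
theorem q1_iff_scale : ∃ c : ℝ, 0 < c ∧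
    ((∃ K : ℝ, ∀ n : ℕ, 2 ≤ n → ∀ c : ℕ, HasC n c → (c : ℝ) ≤ K * Real.log n) ↔
      ∃ K Λ y0 : ℝ, ∀ y : ℝ, y0 ≤ y → ∃ x : ℝ, y ≤ x ∧ x ≤ y ^ Λ ∧ (Exc K x : ℝ) ≤ c * x / y) := by
  obtain ⟨c, B, hc, hB, H⟩ := transfer
  refine ⟨c, hc, ?_, ?_⟩
  · rintro ⟨K, hK⟩
    refine ⟨K, 1, 1, fun y hy => ⟨y, le_rfl, by rw [Real.rpow_one], ?_⟩⟩
    have : Exc K y = 0 := by
      classical
      unfold Exc
      rw [card_eq_zero, filter_eq_empty_iff]
      rintro n hn ⟨c, hc1, hc2⟩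
      have := hK n (mem_Icc.1 hn).1 c hc1
      linarith
    rw [this, Nat.cast_zero]
    have : 0 < y := by linarith
    positivity
  · rintro ⟨K, Λ, y0, h⟩
    obtain ⟨a, ha⟩ := pow_unbounded_of_one_lt (max B y0) (by norm_num : (1 : ℝ) < 2)
    set K1 : ℝ := max K 0 with hK1
    set L1 : ℝ := max Λ 0 with hL1
    have hK10 : 0 ≤ K1 := le_max_right _ _
    have hL10 : 0 ≤ L1 := le_max_right _ _
    refine ⟨K1 * (L1 * ((a + 2 : ℕ) : ℝ)) + 2, fun m hm C0 hC0 => ?_⟩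
    have hm2 : (2 : ℝ) ≤ m := by exact_mod_cast hm
    have hm0 : (0 : ℝ) < m := by linarith
    have hm1 : (1 : ℝ) ≤ m := by linarith
    set y : ℝ := (m : ℝ) ^ (a + 2) with hy
    have hpa : (2 : ℝ) ^ a ≤ (m : ℝ) ^ a := pow_le_pow_left₀ (by norm_num) hm2 a
    have hy2 : 2 ^ a * (2 * m) ≤ y := by
      rw [hy, pow_add, pow_two]
      exact mul_le_mul hpa (by nlinarith) (by positivity) (by positivity)
    have h2a : (1 : ℝ) ≤ 2 ^ a := one_le_pow₀ (by norm_num)
    have hyB : B * m ≤ y := by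
      have h1 : B ≤ 2 ^ a := (le_max_left _ _).trans ha.le
      nlinarith
    have hym : 2 * (m : ℝ) ≤ y := by nlinarith
    have hyy : y0 ≤ y := by
      have h1 : y0 ≤ 2 ^ a := (le_max_right _ _).trans ha.le
      nlinarith
    have hy1 : 1 ≤ y := by linarith
    have hypos : 0 < y := by linarith
    obtain ⟨x, hx1, hx2, hx3⟩ := h y hyy
    have hxpos : 0 < x := by linarith
    have hmono : (Exc K1 x : ℝ) ≤ Exc K x := by
      classical
      have : Exc K1 x ≤ Exc K x := by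
        unfold Exc
        refine card_le_card fun n hn => ?_
        rw [mem_filter] at hn ⊢
        refine ⟨hn.1, ?_⟩
        obtain ⟨c', h1, h2⟩ := hn.2
        refine ⟨c', h1, lt_of_le_of_lt ?_ h2⟩
        have hn2 : (2 : ℝ) ≤ n := by exact_mod_cast (mem_Icc.1 hn.1).1
        exact mul_le_mul_of_nonneg_right (le_max_left _ _) (Real.log_nonneg (by linarith))
      exact_mod_cast this
    have hE : m * (Exc K1 x : ℝ) < c * x := by
      have h1 : m * (Exc K1 x : ℝ) ≤ m * (c * x / y) :=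
        mul_le_mul_of_nonneg_left (hmono.trans hx3) hm0.le
      refine h1.trans_lt ?_
      rw [← mul_div_assoc, div_lt_iff₀ hypos]
      have h2 : 0 < c * x := by positivity
      nlinarith
    have h1 := H K1 x m C0 hK10 hm hC0 (hyB.trans hx1) hE
    have hlogm : (1 : ℝ) / 2 ≤ Real.log m := by
      have e1 := Real.log_two_gt_d9
      have e2 : Real.log 2 ≤ Real.log m := Real.log_le_log (by norm_num) hm2
      linarith
    have h2 : Real.log x ≤ L1 * (((a + 2 : ℕ) : ℝ) * Real.log m) := by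
      calc Real.log x ≤ Real.log (y ^ L1) :=
            Real.log_le_log hxpos (hx2.trans (Real.rpow_le_rpow_of_exponent_le hy1 (le_max_left _ _)))
        _ = L1 * Real.log y := Real.log_rpow hypos L1
        _ = L1 * (((a + 2 : ℕ) : ℝ) * Real.log m) := by rw [hy, Real.log_pow]
    have h3 : K1 * Real.log x ≤ K1 * (L1 * (((a + 2 : ℕ) : ℝ) * Real.log m)) :=
      mul_le_mul_of_nonneg_left h2 hK10
    have h4 : K1 * (L1 * (((a + 2 : ℕ) : ℝ) * Real.log m)) = K1 * (L1 * ((a + 2 : ℕ) : ℝ)) * Real.log m := by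
      ring
    linarith

end Pool.Agent.helper49.Dich
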