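import Pool.Agent.helper49.PDR.Strip
import Pool.Agent.helper82.PD.Rul
import Pool.Agent.helper82.PD.RootG
import Pool.Agent.helper14.EX1.CirG
import Pool.Agent.helper14.EX1.Cir

/-!
# Uniform lower bound for the predecessor sets

There are `c > 0`, `B` such that for every `m` not divisible by `3` which reaches `1` and every `x ≥ B m` at least `c x / m` of the
integers `n ≤ x` pass through `m`.
-/

namespace Pool.Agent.helper49.Dich

open Finset Pool.Agent.helper14.EX1 Pool.Agent.helper49.PDR Pool.Agent.helper82.PD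
  Pool.Agent.helper41.Coll

/-- A letter of bounded size leads from any node to the class of `r`. -/
theorem letter_bdd (n : ℕ) (r : ℤ) : ∃ K1 : ℕ, ∀ z : ℤ, ∃ k : ℕ, 1 ≤ k ∧ k ≤ K1 ∧ Al k z ∧
    (3 : ℤ) ^ n ∣ Tk k z - r := by
  choose F hF using fun c : ℤ => primG c n r 0
  refine ⟨(range (3 ^ (n + 1))).sup (fun c : ℕ => F c), fun z => ?_⟩
  have hp : (0 : ℤ) < 3 ^ (n + 1) := by positivity
  obtain ⟨c, hc⟩ : ∃ c : ℕ, (c : ℤ) = z % 3 ^ (n + 1) :=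
    ⟨(z % 3 ^ (n + 1)).toNat, Int.toNat_of_nonneg (Int.emod_nonneg _ hp.ne')⟩
  have hc2 : c < 3 ^ (n + 1) := by
    have := Int.emod_lt_of_pos z hp
    rw [← hc] at this
    exact_mod_cast this
  have hz : z = c + 3 ^ (n + 1) * (z / 3 ^ (n + 1)) := by
    rw [hc]
    exact (Int.emod_add_mul_ediv z _).symm
  obtain ⟨h1, -, h2, h3⟩ := hF (c : ℤ)
  refine ⟨F c, h1, Finset.le_sup (f := fun c : ℕ => F c) (mem_range.2 hc2), ?_, ?_⟩
  · refine (al_congr (F c) ?_).2 h2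
    refine ⟨3 ^ n * (z / 3 ^ (n + 1)), ?_⟩
    rw [pow_succ] at hz ⊢
    linear_combination hz
  · have e : Tk (F c) z = Tk (F c) (c : ℤ) + 3 ^ n * (2 ^ (F c) * (z / 3 ^ (n + 1))) := by
      conv_lhs => rw [hz]
      exact Tk_shift (F c) n (c : ℤ) (z / 3 ^ (n + 1))
    rw [e]
    have : Tk (F c) (c : ℤ) + 3 ^ n * (2 ^ (F c) * (z / 3 ^ (n + 1))) - r =
        (Tk (F c) (c : ℤ) - r) + 3 ^ n * (2 ^ (F c) * (z / 3 ^ (n + 1))) := by ring
    rw [this]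
    exact dvd_add h3 (dvd_mul_right _ _)

/-- The start. -/
theorem start_bd {m : ℕ} (hm : 1 ≤ m) (h3 : ¬ 3 ∣ m) : ∃ z0 : ℤ, 1 ≤ z0 ∧
    3 * z0 + 2 ≤ 5 * m ∧ (∃ i, f^[i] (3 * z0 + 2).toNat = m) ∧
    ∀ C, HasC m C → ∃ C', C ≤ C' ∧ HasC (3 * z0 + 2).toNat C' := by
  by_cases hm2 : m ≤ 2
  · have h5 : (3 * (1 : ℤ) + 2).toNat = 5 := rfl
    obtain ⟨C', hC'⟩ := exists_hasC RootG_five.1
    have hm' : m = 1 ∨ m = 2 := by omega
    rcases hm' with rfl | rfl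
    · refine ⟨1, le_rfl, by norm_num, ⟨4, by rw [h5]; exact RootG_five.1⟩, fun C hC => ?_⟩
      have h0 := hasC_unique hC Cir_one
      exact ⟨C', by omega, by rw [h5]; exact hC'⟩
    · refine ⟨1, le_rfl, by norm_num, ⟨3, by rw [h5]; exact RootG_five.2⟩, fun C hC => ?_⟩
      have h0 := hasC_unique hC (CirG_double Cir_one)
      exact ⟨C', by omega, by rw [h5]; exact hC'⟩
  · have hmod : m % 3 = 1 ∨ m % 3 = 2 := by omega
    rcases hmod with h | h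
    · have h5 : (3 * (((2 * m - 2) / 3 : ℕ) : ℤ) + 2).toNat = 2 * m := by omega
      refine ⟨((2 * m - 2) / 3 : ℕ), ?_, ?_, ⟨1, ?_⟩, fun C hC => ⟨C, le_rfl, ?_⟩⟩
      · have : 1 ≤ (2 * m - 2) / 3 := by omega
        exact_mod_cast this
      · omega
      · rw [h5]
        exact RootG_f_even m
      · rw [h5]
        exact CirG_double hC
    · have h5 : (3 * (((m - 2) / 3 : ℕ) : ℤ) + 2).toNat = m := by omega
      refine ⟨((m - 2) / 3 : ℕ), ?_, ?_, ⟨0, ?_⟩, fun C hC => ⟨C, le_rfl, ?_⟩⟩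
      · omega
      · omega
      · rw [h5]; rfl
      · rw [h5]; exact hC

theorem uniform : ∃ c B : ℝ, 0 < c ∧ 1 ≤ B ∧ ∀ m : ℕ, 1 ≤ m → ¬ 3 ∣ m → (∃ i, f^[i] m = 1) →
    ∀ x : ℝ, B * m ≤ x → ∃ S : Finset ℕ, (∀ n ∈ S, 2 ≤ n ∧ (n : ℝ) ≤ x ∧ (∃ i, f^[i] n = m) ∧
      ∀ C, HasC m C → ∃ C', C ≤ C' ∧ HasC n C') ∧ c * (x / m) ≤ S.card := by
  obtain ⟨C, ρ, hC, hρ, hρ1, R, -⟩ := exists_rule (e := 1 / 100) (by norm_num) le_rfl
  obtain ⟨i0, n0, -, r, X0, hX0, H⟩ := strip_mass hC hρ hρ1 R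
  obtain ⟨K1, hK1⟩ := letter_bdd n0 r
  have hK : (0 : ℝ) < 2 ^ K1 := by positivity
  have hK' : (1 : ℝ) ≤ 2 ^ K1 := one_le_pow₀ (by norm_num)
  refine ⟨1 / (160 * 2 ^ K1), 10 * 2 ^ K1 * X0, by positivity, ?_, ?_⟩
  · have : (1 : ℝ) ≤ 2 ^ K1 * X0 := one_le_mul_of_one_le_of_one_le hK' hX0
    nlinarith
  intro m hm h3 h1 x hx
  obtain ⟨z0, hz0, hz05, ⟨i, hi⟩, hcirc⟩ := start_bd hm h3
  obtain ⟨k, hk1, hkK, hal, hcl⟩ := hK1 z0
  have hk' : ∀ j ∈ [k], 1 ≤ j := by simpa using hk1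
  have hala : Ala z0 [k] := ⟨hal, trivial⟩
  have hz1 : 1 ≤ Tk k z0 := FiveG_pos hz0 hk' hala
  have hstep := FiveG_step hk1 hz0 hal hz1
  have hreach : f^[i + k] (3 * Tk k z0 + 2).toNat = m := by
    rw [Function.iterate_add_apply, hstep, hi]
  have hone : ∃ i, f^[i] (3 * Tk k z0 + 2).toNat = 1 := by
    obtain ⟨j, hj⟩ := h1
    exact ⟨j + (i + k), by rw [Function.iterate_add_apply, hreach, hj]⟩
  have hsize : 3 * Tk k z0 + 2 ≤ 2 ^ K1 * (5 * m) := by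
    have h4 : 3 ^ 1 * (3 * Tk k z0 + 2) ≤ 2 ^ (k + 0) * (3 * z0 + 2) := nd_le hk' hala
    have h5 : (2 : ℤ) ^ k ≤ 2 ^ K1 := pow_le_pow_right₀ (by norm_num) hkK
    have h6 : (2 : ℤ) ^ k * (3 * z0 + 2) ≤ 2 ^ K1 * (5 * m) :=
      mul_le_mul h5 hz05 (by linarith) (by positivity)
    rw [add_zero] at h4
    linarith
  have hcircz : ∀ C, HasC m C → ∃ C', C ≤ C' ∧ HasC (3 * Tk k z0 + 2).toNat C' := by
    intro C hC
    obtain ⟨C1, hC1, hC2⟩ := hcirc C hC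
    obtain ⟨C2, h4, h5, -⟩ := circG hz0 hC2 hk' hala
    exact ⟨C2, by omega, h4⟩
  obtain ⟨z, hzdef⟩ : ∃ z, z = Tk k z0 := ⟨_, rfl⟩
  rw [← hzdef] at hz1 hreach hone hsize hcircz hcl
  have hm0 : (0 : ℝ) < m := by exact_mod_cast hm
  set X : ℝ := x / (10 * 2 ^ K1 * m) with hX
  have hden : 0 < 10 * 2 ^ K1 * (m : ℝ) := by positivity
  have hXX : X0 ≤ X := by
    rw [hX, le_div_iff₀ hden]
    calc X0 * (10 * 2 ^ K1 * (m : ℝ)) = 10 * 2 ^ K1 * X0 * m := by ring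
      _ ≤ x := hx
  have hXp : 0 < X := by linarith
  have hXx : X * (10 * 2 ^ K1 * m) = x := by
    rw [hX]
    field_simp
  obtain ⟨W, hW, hsum⟩ := H z hcl X hXX
  have hinj : Set.InjOn (fun w => (3 * nd z w + 2).toNat) (W : Set (List ℕ)) := by
    intro v hv w hw h
    obtain ⟨-, a1, a2, -⟩ := hW v hv
    obtain ⟨-, b1, b2, -⟩ := hW w hw
    have p1 := FiveG_pos hz1 a1 a2
    have p2 := FiveG_pos hz1 b1 b2
    have h4 : (3 * nd z v + 2).toNat = (3 * nd z w + 2).toNat := h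
    exact injG hz1 hone a1 b1 a2 b2 (by omega)
  refine ⟨W.image (fun w => (3 * nd z w + 2).toNat), ?_, ?_⟩
  · intro n hn
    obtain ⟨w, hw, rfl⟩ := mem_image.1 hn
    obtain ⟨-, h4, h5, -, h6⟩ := hW w hw
    have p1 := FiveG_pos hz1 h4 h5
    have hhit := hitG hz1 h4 h5
    refine ⟨by omega, ?_, ⟨(i + k) + w.sum, ?_⟩, ?_⟩
    · have hle := nd_le h4 h5
      have hcast : (((3 * nd z w + 2).toNat : ℕ) : ℝ) = 3 * nd z w + 2 := by
        have : (((3 * nd z w + 2).toNat : ℕ) : ℤ) = 3 * nd z w + 2 :=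
          Int.toNat_of_nonneg (by linarith)
        exact_mod_cast this
      have h3l : (0 : ℝ) < 3 ^ w.length := by positivity
      have hle' : (3 * (nd z w : ℝ) + 2) * 3 ^ w.length ≤ 2 ^ w.sum * (3 * z + 2) := by
        have : ((3 ^ w.length * (3 * nd z w + 2) : ℤ) : ℝ) ≤
            ((2 ^ w.sum * (3 * z + 2) : ℤ) : ℝ) := by exact_mod_cast hle
        push_cast at this
        linarith
      have hs : ((3 * z + 2 : ℤ) : ℝ) ≤ ((2 ^ K1 * (5 * m) : ℤ) : ℝ) := by exact_mod_cast hsize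
      push_cast at hs
      have hz0' : (0 : ℝ) ≤ 3 * (z : ℝ) + 2 := by
        have : (1 : ℝ) ≤ (z : ℝ) := by exact_mod_cast hz1
        linarith
      rw [hcast]
      refine le_of_mul_le_mul_right ?_ h3l
      calc (3 * (nd z w : ℝ) + 2) * 3 ^ w.length ≤ 2 ^ w.sum * (3 * z + 2) := hle'
        _ ≤ (2 * X * 3 ^ w.length) * (3 * z + 2) := mul_le_mul_of_nonneg_right h6.2.le hz0'
        _ ≤ (2 * X * 3 ^ w.length) * (2 ^ K1 * (5 * m)) :=
            mul_le_mul_of_nonneg_left hs (by positivity)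
        _ = x * 3 ^ w.length := by linear_combination (3 : ℝ) ^ w.length * hXx
    · rw [Function.iterate_add_apply, hhit, hreach]
    · intro C hC
      obtain ⟨C1, hC1, hC2⟩ := hcircz C hC
      obtain ⟨C2, h7, h8, -⟩ := circG hz1 hC2 h4 h5
      exact ⟨C2, by omega, h7⟩
  · rw [Finset.card_image_of_injOn hinj]
    have h4 : ∀ w ∈ W, ww w ≤ 1 / X := by
      intro w hw
      obtain ⟨-, -, -, -, h5, -⟩ := hW w hw
      unfold ww
      rw [div_le_div_iff₀ (by positivity) hXp]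
      linarith
    have h5 : ∑ w ∈ W, ww w ≤ W.card * (1 / X) := by
      have := sum_le_card_nsmul W ww (1 / X) h4
      rwa [nsmul_eq_mul] at this
    have h6 : (1 : ℝ) / 16 ≤ W.card * (1 / X) := hsum.trans h5
    rw [mul_one_div, le_div_iff₀ hXp] at h6
    have h7 : 1 / (160 * 2 ^ K1) * (x / m) = 1 / 16 * X := by
      rw [hX]
      field_simp
      ring
    rw [h7]
    exact h6

end Pool.Agent.helper49.Dich
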